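import Pool.Agent.Run7.h175.MM.Exp

/-!
# MP_af8c33_pr, Q2: the squared coefficient of variation of every MMPP is at least one

Let `f = (-C)⁻¹ 1` (mean time to the first event from each state). Then `∑ π_i λ_i f_i = 1`, because `π Q = 0`, and
`π f = f^T diag(π) (-C) f = ∑ π_i λ_i f_i ^ 2 + (1/2) ∑ π_i Q_ij (f_i - f_j) ^ 2`. By the inequality of Cauchy and
Schwarz `1 = (∑ π_i λ_i f_i) ^ 2 ≤ (∑ π_i λ_i) (∑ π_i λ_i f_i ^ 2) ≤ (∑ π_i λ_i) (π f) = (π C 1) (π C⁻¹ 1)`.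
No reversibility is needed.
-/

set_option autoImplicit false

namespace Pool.Agent.Results.MP_af8c33_pr.SquaredCoefficientAtLeastOne

open Matrix Pool.R957.Mmpp MeasureTheory

/-- `alpha = pi D / (pi D 1)`: the stationary distribution of the phase chain observed at event epochs -/
noncomputable def alpha {p : ℕ} (M : MMPP p) (piv : Fin p → ℝ) : Fin p → ℝ :=
  (piv ⬝ᵥ (M.D *ᵥ 1))⁻¹ • (piv ᵥ* M.D)

/-- the tail function `P(T_1 > t) = eta e^(C t) 1` of the first event time from the initial distribution `eta` -/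
noncomputable def tail {p : ℕ} (M : MMPP p) (eta : Fin p → ℝ) (t : ℝ) : ℝ :=
  eta ⬝ᵥ (NormedSpace.exp (t • M.C) *ᵥ 1)

/-- the mean of a nonnegative random variable with tail function `G` -/
noncomputable def mean (G : ℝ → ℝ) : ℝ := ∫ t in Set.Ioi (0 : ℝ), G t

/-- the second moment of a nonnegative random variable with tail function `G` -/
noncomputable def moment2 (G : ℝ → ℝ) : ℝ := ∫ t in Set.Ioi (0 : ℝ), 2 * (t * G t)

/-- the squared coefficient of variation: variance divided by the square of the mean -/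
noncomputable def cv2 (G : ℝ → ℝ) : ℝ := (moment2 G - mean G ^ 2) / mean G ^ 2

open Pool.Agent.Run7.h175.MM

theorem mean_tail {p : ℕ} {M : MMPP p} {piv : Fin p → ℝ} (h : M.IsStat piv) (a : Fin p → ℝ) :
    mean (tail M a) = a ⬝ᵥ ff M := by
  have h1 := S_integral h a (M.C⁻¹ *ᵥ 1)
  rw [Matrix.mulVec_mulVec, Matrix.mul_nonsing_inv _ (isUnit_C h), Matrix.one_mulVec] at h1
  have h2 : mean (tail M a) = ∫ t in Set.Ioi (0 : ℝ), S M a 1 t := rfl
  rw [h2, h1]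
  unfold ff
  rw [dotProduct_neg]

theorem moment2_tail {p : ℕ} {M : MMPP p} {piv : Fin p → ℝ} (h : M.IsStat piv) (a : Fin p → ℝ) :
    moment2 (tail M a) = 2 * (a ⬝ᵥ (M.C⁻¹ *ᵥ (M.C⁻¹ *ᵥ 1))) := by
  have h0 : ∀ v : Fin p → ℝ, M.C *ᵥ (M.C⁻¹ *ᵥ v) = v := fun v => by
    rw [Matrix.mulVec_mulVec, Matrix.mul_nonsing_inv _ (isUnit_C h), Matrix.one_mulVec]
  have h1 := tS_integral h a (M.C⁻¹ *ᵥ (M.C⁻¹ *ᵥ 1))
  rw [h0, h0] at h1
  have h2 : moment2 (tail M a) = ∫ t in Set.Ioi (0 : ℝ), 2 * (t * S M a 1 t) := rfl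
  rw [h2, integral_const_mul, h1]

theorem rate_eq {p : ℕ} (M : MMPP p) (piv : Fin p → ℝ) : piv ⬝ᵥ (M.D *ᵥ 1) = rate M piv := by
  unfold rate
  rw [dotProduct]
  refine Finset.sum_congr rfl fun i _ => ?_
  rw [MMPP.D, Matrix.mulVec_diagonal]
  simp

theorem alpha_mean {p : ℕ} {M : MMPP p} {piv : Fin p → ℝ} (h : M.IsStat piv) :
    alpha M piv ⬝ᵥ ff M = (rate M piv)⁻¹ := by
  unfold alpha
  rw [rate_eq, smul_dotProduct]
  have h1 : (piv ᵥ* M.D) ⬝ᵥ ff M = 1 := by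
    rw [← lam_ff h, dotProduct]
    refine Finset.sum_congr rfl fun i _ => ?_
    rw [MMPP.D, Matrix.vecMul_diagonal]
  rw [h1, smul_eq_mul, mul_one]

theorem alpha_moment {p : ℕ} {M : MMPP p} {piv : Fin p → ℝ} (h : M.IsStat piv) :
    alpha M piv ⬝ᵥ (M.C⁻¹ *ᵥ (M.C⁻¹ *ᵥ 1)) = (rate M piv)⁻¹ * ∑ i, piv i * ff M i := by
  unfold alpha
  rw [rate_eq, smul_dotProduct, smul_eq_mul]
  congr 1
  have h1 : piv ᵥ* M.D = - (piv ᵥ* M.C) := by
    rw [MMPP.C, Matrix.vecMul_sub, h.stat, zero_sub, neg_neg]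
  rw [h1, neg_dotProduct, ← Matrix.dotProduct_mulVec, Matrix.mulVec_mulVec,
    Matrix.mul_nonsing_inv _ (isUnit_C h), Matrix.one_mulVec]
  unfold ff
  simp only [dotProduct, Pi.neg_apply, mul_neg, Finset.sum_neg_distrib]

theorem cv2_eq {p : ℕ} {M : MMPP p} {piv : Fin p → ℝ} (h : M.IsStat piv) :
    cv2 (tail M (alpha M piv)) = 2 * (rate M piv * ∑ i, piv i * ff M i) - 1 := by
  unfold cv2
  rw [mean_tail h, moment2_tail h, alpha_mean h, alpha_moment h]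
  have h1 := (rate_pos h).ne'
  field_simp

/-- Q2 has a positive answer. For every MMPP `(Q, lam)` of order `p` with stationary vector `piv`: `C` is invertible,
`T_1^alpha` has finite moments `E T` and `E T ^ 2` and `E T > 0`, its squared coefficient of variation is
`c ^ 2 = 2 (pi C 1) (pi C⁻¹ 1) - 1` and satisfies `c ^ 2 ≥ 1`, that is `(pi C 1) (pi C⁻¹ 1) ≥ 1`, with equality if and
only if all rates `lam_i` are equal (the Poisson process); and `E T_1^pi ≥ E T_1^alpha`. -/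
theorem result (p : ℕ) (M : MMPP p) (piv : Fin p → ℝ) (h : M.IsStat piv) :
    (M.C * M.C⁻¹ = 1 ∧ IntegrableOn (tail M (alpha M piv)) (Set.Ioi 0) ∧
      IntegrableOn (fun t => 2 * (t * tail M (alpha M piv) t)) (Set.Ioi 0) ∧
      0 < mean (tail M (alpha M piv)) ∧
      cv2 (tail M (alpha M piv)) + 1 = 2 * (piv ⬝ᵥ (M.C *ᵥ 1)) * (piv ⬝ᵥ (M.C⁻¹ *ᵥ 1))) ∧
    1 ≤ cv2 (tail M (alpha M piv)) ∧
    1 ≤ (piv ⬝ᵥ (M.C *ᵥ 1)) * (piv ⬝ᵥ (M.C⁻¹ *ᵥ 1)) ∧
    mean (tail M (alpha M piv)) ≤ mean (tail M piv) ∧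
    (cv2 (tail M (alpha M piv)) = 1 ↔ ∀ i j, M.lam i = M.lam j) := by
  have h1 := main h
  have h2 := cv2_eq h
  have h3 := rate_pos h
  refine ⟨⟨Matrix.mul_nonsing_inv _ (isUnit_C h), S_int h _ _, (tS_int h _ _).const_mul 2, ?_, ?_⟩, ?_, ?_, ?_, ?_⟩
  · rw [mean_tail h, alpha_mean h]
    exact inv_pos.2 h3
  · rw [h2, mul_assoc, prod_eq h]
    ring
  · rw [h2]
    linarith
  · rw [prod_eq h]
    exact h1
  · rw [mean_tail h, mean_tail h, alpha_mean h, inv_le_iff_one_le_mul₀ h3, mul_comm]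
    exact h1
  · rw [h2]
    constructor
    · intro h4
      exact main_eq h (by linarith)
    · intro h4
      rw [const_eq h h4]
      norm_num

end Pool.Agent.Results.MP_af8c33_pr.SquaredCoefficientAtLeastOne
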